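import Pool.Agent.H25.EE.TargetsA

/-! Row `CNT` of the board ee_modules: counting the zeros near `e`. -/

set_option autoImplicit false

namespace Pool.Agent.H68.EE5.CNT

open Pool.Agent.H25.EE Polynomial Finset

private theorem cardsum (S : Multiset ℂ) (p : ℂ → Prop) [DecidablePred p] (f : ℂ → ℝ) (c : ℝ)
    (h0 : ∀ β, 0 ≤ f β) (hc : ∀ β, p β → c ≤ f β) :
    (Multiset.card (S.filter p) : ℝ) * c ≤ (S.map f).sum := by
  induction S using Multiset.induction_on with
  | empty => simp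
  | cons a S ih =>
    rw [Multiset.map_cons, Multiset.sum_cons]
    by_cases ha : p a
    · rw [Multiset.filter_cons_of_pos _ ha, Multiset.card_cons]
      have h1 := hc a ha
      push_cast
      linarith
    · rw [Multiset.filter_cons_of_neg _ ha]
      have h1 := h0 a
      linarith

private theorem cardfil (F : Multiset ℤ[X]) (p : ℂ → Prop) [DecidablePred p] :
    (Multiset.card ((F.map rts).sum.filter p) : ℝ) =
      (F.map fun R => (Multiset.card ((rts R).filter p) : ℝ)).sum := by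
  induction F using Multiset.induction_on with
  | empty => simp
  | cons a S ih =>
    rw [Multiset.map_cons, Multiset.sum_cons, Multiset.filter_add, Multiset.card_add,
      Multiset.map_cons, Multiset.sum_cons, ← ih]
    push_cast
    ring

private theorem sumle (F : Multiset ℤ[X]) (f g h : ℤ[X] → ℝ) (a b c : ℝ)
    (H : ∀ R ∈ F, f R * c ≤ a * g R + b * h R) :
    (F.map f).sum * c ≤ a * (F.map g).sum + b * (F.map h).sum := by
  induction F using Multiset.induction_on with
  | empty => simp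
  | cons R S ih =>
    have h1 := H R (Multiset.mem_cons_self R S)
    have h2 := ih fun Q hQ => H Q (Multiset.mem_cons_of_mem hQ)
    rw [Multiset.map_cons, Multiset.sum_cons, Multiset.map_cons, Multiset.sum_cons,
      Multiset.map_cons, Multiset.sum_cons]
    nlinarith

theorem mem_rts (R : ℤ[X]) (β : ℂ) (h : β ∈ rts R) : ev R β = 0 := by
  unfold rts at h
  unfold ev
  exact (Polynomial.mem_roots'.1 h).2

theorem ev_dvd (R D : ℤ[X]) (h : R ∣ D) (hD : ev D ee ≠ 0) : ev R ee ≠ 0 := by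
  obtain ⟨Q, rfl⟩ := h
  intro h0
  apply hD
  unfold ev toC at *
  rw [Polynomial.map_mul, Polynomial.eval_mul, h0, zero_mul]

theorem bN_nonneg (J : ℕ) : 0 ≤ bN J := by unfold bN; positivity

theorem bH_nonneg (J : ℕ) : 0 ≤ bH J := by
  unfold bH
  have := Real.log_natCast_nonneg J
  positivity

theorem vv_nonneg (β : ℂ) : 0 ≤ vv β := le_max_left _ _

theorem VJ_nonneg (J : ℕ) : 0 ≤ VJ J := by
  unfold VJ
  have := Real.log_natCast_nonneg J
  positivity

theorem VJ_le_thr (J : ℕ) : VJ J ≤ thr J := by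
  unfold VJ thr
  have h1 := Real.log_natCast_nonneg J
  have h2 : (0 : ℝ) ≤ (J : ℝ) ^ 4 * Real.log J := by positivity
  nlinarith

private theorem one (hONE : T_ONE) (ε : ℝ) (j : ℕ) (hε : 0 < ε) (hε1 : ε ≤ 1 / 1000000)
    (hj : 2 ≤ j) (hF : FTI ε j) (R : ℤ[X]) (hR : Irreducible R) (hRe : ev R ee ≠ 0)
    (hMR : 0 ≤ hM R) :
    (Multiset.card ((rts R).filter fun β => thr j ≤ vv β) : ℝ) *
      (2 / 1000000 * (j : ℝ) ^ 8 * Real.log j) ≤ bN j * hM R + bH j * (R.natDegree : ℝ) := by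
  have hjr : (2 : ℝ) ≤ (j : ℝ) := by exact_mod_cast hj
  have hlog : 0 < Real.log j := Real.log_pos (by linarith)
  by_cases h0 : Multiset.card ((rts R).filter fun β => thr j ≤ vv β) = 0
  · rw [h0]
    have h1 := bN_nonneg j
    have h2 := bH_nonneg j
    push_cast
    rw [zero_mul]
    positivity
  · have h1 : 0 < Multiset.card ((rts R).filter fun β => thr j ≤ vv β) := Nat.pos_of_ne_zero h0
    obtain ⟨β1, hβ1⟩ := Multiset.card_pos_iff_exists_mem.1 h1
    rw [Multiset.mem_filter] at hβ1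
    have h2 := hONE ε j hε.le hj hF R hR hRe β1 (mem_rts R β1 hβ1.1) hβ1.2
      (fun β => if thr j ≤ vv β then VJ j else 0) (by
        intro β _
        split_ifs with h
        · exact ⟨VJ_nonneg j, (VJ_le_thr j).trans h⟩
        · exact ⟨le_rfl, vv_nonneg β⟩)
    have hphi : 2 / 1000000 * (j : ℝ) ^ 8 * Real.log j ≤ phi ε j (VJ j) := by
      unfold phi VJ
      have e1 : 2 / 1125 * (j : ℝ) ^ 4 * (4 / 1125 * (j : ℝ) ^ 4 * Real.log j) -
          (4 / 1125 * (j : ℝ) ^ 4 * Real.log j) ^ 2 / (4 * Real.log j) -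
            ε * (j : ℝ) ^ 8 * Real.log j = (4 / 1265625 - ε) * ((j : ℝ) ^ 8 * Real.log j) := by
        field_simp
        ring
      rw [e1, mul_assoc]
      have h3 : 0 ≤ (j : ℝ) ^ 8 * Real.log j := by positivity
      refine mul_le_mul_of_nonneg_right ?_ h3
      linarith
    refine (cardsum (rts R) (fun β => thr j ≤ vv β) _ _ (fun β => le_max_left _ _)
      (fun β hβ => ?_)).trans h2
    rw [if_pos hβ]
    exact hphi.trans (le_max_right _ _)

theorem pf_CNT (hFAC : T_FAC) (hONE : T_ONE) : T_CNT := by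
  intro ε J j D hε hε1 hj hjJ hF hD hN hL
  have hD0 : D ≠ 0 := by
    rintro rfl
    apply hD
    unfold ev toC
    rw [Polynomial.map_zero, Polynomial.eval_zero]
  obtain ⟨F, h1, h2, h3, h4, h5⟩ := hFAC D hD0
  have hjr : (2 : ℝ) ≤ (j : ℝ) := by exact_mod_cast hj
  have hjJr : (j : ℝ) ≤ (J : ℝ) := by exact_mod_cast hjJ
  have hlog : 0 < Real.log j := Real.log_pos (by linarith)
  have hlog2 : Real.log j ≤ Real.log J := Real.log_le_log (by linarith) hjJr
  have k1 := sumle F (fun R => (Multiset.card ((rts R).filter fun β => thr j ≤ vv β) : ℝ)) hM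
    (fun R => (R.natDegree : ℝ)) (bN j) (bH j) (2 / 1000000 * (j : ℝ) ^ 8 * Real.log j)
    (fun R hR => one hONE ε j hε hε1 hj hF R (h1 R hR).1 (ev_dvd R D (h1 R hR).2.1 hD)
      (h1 R hR).2.2)
  rw [← cardfil F (fun β => thr j ≤ vv β), h4, h2] at k1
  have k2 : Real.log (plen D) ≤ bH J := by
    rw [Real.log_le_iff_le_exp (by linarith)]
    exact hL
  have k3 : bN j * (F.map hM).sum + bH j * (D.natDegree : ℝ) ≤ bN j * bH J + bH j * bN J :=
    add_le_add (mul_le_mul_of_nonneg_left (h3.trans k2) (bN_nonneg j))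
      (mul_le_mul_of_nonneg_left hN (bH_nonneg j))
  have k4 := k1.trans k3
  set n : ℝ := (Multiset.card ((rts D).filter fun β => thr j ≤ vv β) : ℝ) with hn
  have e1 : bN j * bH J + bH j * bN J = 2849 / 2000000 * (2279 / 2000000000) *
      ((j : ℝ) ^ 6 * (J : ℝ) ^ 6 * (Real.log J + Real.log j)) := by
    unfold bN bH
    ring
  have hj6 : (0 : ℝ) < (j : ℝ) ^ 6 := by positivity
  have k5 : (j : ℝ) ^ 6 * (n * ((j : ℝ) ^ 2 * Real.log j)) ≤
      (j : ℝ) ^ 6 * (3 / 1000 * (J : ℝ) ^ 6 * Real.log J) := by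
    have e2 : n * (2 / 1000000 * (j : ℝ) ^ 8 * Real.log j) =
        2 / 1000000 * ((j : ℝ) ^ 6 * (n * ((j : ℝ) ^ 2 * Real.log j))) := by ring
    have hJ6 : (0 : ℝ) ≤ (j : ℝ) ^ 6 * (J : ℝ) ^ 6 := by positivity
    have k6 : (j : ℝ) ^ 6 * (J : ℝ) ^ 6 * (Real.log J + Real.log j) ≤
        (j : ℝ) ^ 6 * (J : ℝ) ^ 6 * (2 * Real.log J) :=
      mul_le_mul_of_nonneg_left (by linarith) hJ6
    have k7 : (0 : ℝ) ≤ (j : ℝ) ^ 6 * (J : ℝ) ^ 6 * Real.log J :=
      mul_nonneg hJ6 (hlog.le.trans hlog2)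
    rw [e1, e2] at k4
    nlinarith
  exact le_of_mul_le_mul_left k5 hj6

end Pool.Agent.H68.EE5.CNT
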