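import Pool.Agent.H25.EE.TargetsA

/-! Row `KEYR` of the board ee_modules: the key inequality for an irreducible factor. -/

set_option autoImplicit false

namespace Pool.Agent.H68.EE5.KEYR

open Pool.Agent.H25.EE Polynomial Finset

private theorem sumle (S : Multiset ℂ) (p : ℂ → Prop) [DecidablePred p] (f g : ℂ → ℝ)
    (h0 : ∀ β, 0 ≤ g β) (hc : ∀ β ∈ S, p β → f β ≤ g β) :
    ((S.filter p).map f).sum ≤ (S.map g).sum := by
  induction S using Multiset.induction_on with
  | empty => simp
  | cons a S ih =>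
    have ih' := ih fun β hβ => hc β (Multiset.mem_cons_of_mem hβ)
    rw [Multiset.map_cons, Multiset.sum_cons]
    by_cases ha : p a
    · rw [Multiset.filter_cons_of_pos _ ha, Multiset.map_cons, Multiset.sum_cons]
      exact add_le_add (hc a (Multiset.mem_cons_self a S) ha) ih'
    · rw [Multiset.filter_cons_of_neg _ ha]
      have h1 := h0 a
      linarith

private theorem mem_rts (R : ℤ[X]) (β : ℂ) (h : β ∈ rts R) : ev R β = 0 := by
  unfold rts at h
  unfold ev
  exact (Polynomial.mem_roots'.1 h).2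

private theorem bN_nonneg (J : ℕ) : 0 ≤ bN J := by unfold bN; positivity

private theorem bH_nonneg (J : ℕ) : 0 ≤ bH J := by
  unfold bH
  have := Real.log_natCast_nonneg J
  positivity

private theorem VJ_nonneg (J : ℕ) : 0 ≤ VJ J := by
  unfold VJ
  have := Real.log_natCast_nonneg J
  positivity

theorem pf_KEYR (hONE : T_ONE) (hPW : T_PW) (hGIN : T_GIN) : T_KEYR := by
  obtain ⟨Jb, hJb⟩ := hPW
  refine ⟨max Jb 400, ?_⟩
  intro J hJ J1 h200 hJ1 hFT R hR hRe hMR
  have hJ400 : 400 ≤ J := (le_max_right _ _).trans hJ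
  have hJ1' : 2 ≤ J1 := by omega
  by_cases h0 : ((rts R).filter fun β => thr J1 ≤ vv β) = 0
  · rw [h0]
    have h1 := bN_nonneg J
    have h2 := bH_nonneg J
    rw [Multiset.map_zero, Multiset.sum_zero, mul_zero]
    positivity
  · -- the root closest to `e`
    obtain ⟨β0, hβ0⟩ := Multiset.exists_mem_of_ne_zero h0
    have hne : ((rts R).filter fun β => thr J1 ≤ vv β).toFinset.Nonempty :=
      ⟨β0, Multiset.mem_toFinset.2 hβ0⟩
    obtain ⟨β1, hβ1, hmax⟩ := Finset.exists_max_image _ vv hne
    rw [Multiset.mem_toFinset, Multiset.mem_filter] at hβ1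
    classical
    set J' : ℕ := Nat.findGreatest (fun j => thr j ≤ vv β1) J with hJ'
    have a1 : J1 ≤ J' := Nat.le_findGreatest hJ1 hβ1.2
    have a2 : J' ≤ J := Nat.findGreatest_le J
    have a3 : thr J' ≤ vv β1 := Nat.findGreatest_spec (P := fun j => thr j ≤ vv β1) hJ1 hβ1.2
    have a4 : J' = J ∨ vv β1 < thr (J' + 1) := by
      rcases Nat.lt_or_ge J' J with h | h
      · right
        have h1 := Nat.findGreatest_is_greatest (P := fun j => thr j ≤ vv β1) (n := J)
          (k := J' + 1) (Nat.lt_succ_self _) h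
        exact not_le.1 h1
      · left
        omega
    have a5 := hONE (1 / 10 ^ 20) J' (by norm_num) (hJ1'.trans a1) (hFT J' a1 a2) R hR hRe β1
      (mem_rts R β1 hβ1.1) a3 (fun β => if thr J1 ≤ vv β then min (vv β) (VJ J') else 0) (by
        intro β _
        split_ifs with h
        · exact ⟨le_min (le_max_left _ _) (VJ_nonneg J'), min_le_left _ _⟩
        · exact ⟨le_rfl, le_max_left _ _⟩)
    have hJ'pos : (0 : ℝ) < (J' : ℝ) := by
      have : 0 < J' := by omega
      exact_mod_cast this
    have hJJ' : (J' : ℝ) ≤ (J : ℝ) := by exact_mod_cast a2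
    have hlogJ' : Real.log J' ≤ Real.log J := Real.log_le_log hJ'pos hJJ'
    have hC : 0 ≤ 101 / 100 * ((J : ℝ) / J') ^ 6 := by positivity
    have a6 : 8 / 1265625 * (J : ℝ) ^ 8 * Real.log J *
        (((rts R).filter fun β => thr J1 ≤ vv β).map fun β => GG (vv β / VJ J)).sum ≤
        101 / 100 * ((J : ℝ) / J') ^ 6 * ((rts R).map fun β => max 0 (phi (1 / 10 ^ 20) J'
          ((fun β => if thr J1 ≤ vv β then min (vv β) (VJ J') else 0) β))).sum := by
      rw [← Multiset.sum_map_mul_left, ← Multiset.sum_map_mul_left]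
      refine sumle (rts R) (fun β => thr J1 ≤ vv β) _ _ (fun β => ?_) (fun β hβ hp => ?_)
      · exact mul_nonneg hC (le_max_left _ _)
      · have b1 : vv β ≤ vv β1 := hmax β (Multiset.mem_toFinset.2
          (Multiset.mem_filter.2 ⟨hβ, hp⟩))
        have b2 : J' = J ∨ vv β < thr (J' + 1) := a4.imp id fun h => b1.trans_lt h
        have b3 := hJb J ((le_max_left _ _).trans hJ) J1 J' h200 a1 a2 (vv β) hp b2
        refine b3.trans (mul_le_mul_of_nonneg_left ?_ hC)
        beta_reduce
        rw [if_pos hp]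
        exact le_max_right _ _
    have a7 := a6.trans (mul_le_mul_of_nonneg_left a5 hC)
    refine a7.trans ?_
    have c1 : ((J : ℝ) / J') ^ 6 * bN J' = bN J := by
      unfold bN
      rw [div_pow]
      field_simp
    have c2 : ((J : ℝ) / J') ^ 6 * bH J' ≤ bH J := by
      have e1 : ((J : ℝ) / J') ^ 6 * bH J' = 2279 / 2000000000 * (J : ℝ) ^ 6 * Real.log J' := by
        unfold bH
        rw [div_pow]
        field_simp
      rw [e1]
      unfold bH
      exact mul_le_mul_of_nonneg_left hlogJ' (by positivity)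
    have c3 : ((J : ℝ) / J') ^ 6 * bH J' * (R.natDegree : ℝ) ≤ bH J * (R.natDegree : ℝ) :=
      mul_le_mul_of_nonneg_right c2 (Nat.cast_nonneg _)
    have e2 : 101 / 100 * ((J : ℝ) / J') ^ 6 * (bN J' * hM R + bH J' * (R.natDegree : ℝ)) =
        101 / 100 * (((J : ℝ) / J') ^ 6 * bN J' * hM R +
          ((J : ℝ) / J') ^ 6 * bH J' * (R.natDegree : ℝ)) := by ring
    rw [e2, c1]
    linarith

end Pool.Agent.H68.EE5.KEYR
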